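import Mathlib
import Pool.Agent.helper61.DL.Defs

set_option autoImplicit false

/-!
# MP_6163c8_ag, Denef-Loeser part, module M: Laplace integrals over simplicial cones

Two decompositions of the same cone into simplicial cones give the same sum
`∑ |det| / ∏ (w ⬝ᵥ y)`.
-/

namespace Pool.Agent.helper19.DL

open Finset Filter Topology MeasureTheory Matrix Pool.Agent.helper61.DL

lemma one_dim (c : ℝ) (hc : 0 < c) :
    ∫ t, (Set.Ioi (0 : ℝ)).indicator (fun s => Real.exp (-c * s)) t = 1 / c := by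
  rw [integral_indicator measurableSet_Ioi, integral_exp_mul_Ioi (by linarith)]
  simp only [mul_zero, Real.exp_zero]
  field_simp

lemma one_dim_int (c : ℝ) (hc : 0 < c) :
    Integrable ((Set.Ioi (0 : ℝ)).indicator (fun s => Real.exp (-c * s))) :=
  (integrable_indicator_iff measurableSet_Ioi).2 (exp_neg_integrableOn_Ioi 0 hc)

/-- open simplicial cone of the rows of `W` -/
def cone {M : ℕ} (W : Matrix (Fin M) (Fin M) ℝ) : Set (Fin M → ℝ) :=
  {k | ∀ i, 0 < (k ᵥ* W⁻¹) i}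

/-- the function integrated -/
noncomputable def gfun {M : ℕ} (W : Matrix (Fin M) (Fin M) ℝ) (z : Fin M → ℝ) :
    (Fin M → ℝ) → ℝ := (cone W).indicator fun k => Real.exp (-(k ⬝ᵥ z))

lemma measurableSet_cone {M : ℕ} (W : Matrix (Fin M) (Fin M) ℝ) : MeasurableSet (cone W) := by
  have : cone W = ⋂ i, {k | 0 < (k ᵥ* W⁻¹) i} := by
    ext k; simp [cone]
  rw [this]
  refine MeasurableSet.iInter fun i => ?_
  apply IsOpen.measurableSet
  refine isOpen_lt continuous_const ?_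
  unfold Matrix.vecMul dotProduct
  fun_prop

lemma measurable_gfun {M : ℕ} (W : Matrix (Fin M) (Fin M) ℝ) (z : Fin M → ℝ) :
    Measurable (gfun W z) := by
  refine Measurable.indicator ?_ (measurableSet_cone W)
  apply Continuous.measurable
  unfold dotProduct
  fun_prop

lemma gfun_comp {M : ℕ} (W : Matrix (Fin M) (Fin M) ℝ) (hW : W.det ≠ 0) (z t : Fin M → ℝ) :
    gfun W z (Matrix.toLin' Wᵀ t) =
      ∏ i, (Set.Ioi (0 : ℝ)).indicator (fun s => Real.exp (-(W i ⬝ᵥ z) * s)) (t i) := by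
  have hu : IsUnit W.det := isUnit_iff_ne_zero.2 hW
  have h1 : Matrix.toLin' Wᵀ t = t ᵥ* W := by
    rw [Matrix.toLin'_apply, Matrix.mulVec_transpose]
  have h2 : (t ᵥ* W) ᵥ* W⁻¹ = t := by
    rw [Matrix.vecMul_vecMul, Matrix.mul_nonsing_inv _ hu, Matrix.vecMul_one]
  have h3 : (t ᵥ* W) ⬝ᵥ z = ∑ i, (W i ⬝ᵥ z) * t i := by
    rw [← Matrix.dotProduct_mulVec]
    simp only [dotProduct, Matrix.mulVec]
    exact Finset.sum_congr rfl fun i _ => mul_comm _ _
  rw [h1]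
  by_cases h : ∀ i, 0 < t i
  · have hmem : t ᵥ* W ∈ cone W := by
      intro i
      rw [h2]
      exact h i
    rw [gfun, Set.indicator_of_mem hmem, h3, ← Finset.sum_neg_distrib, Real.exp_sum]
    refine Finset.prod_congr rfl fun i _ => ?_
    rw [Set.indicator_of_mem (show t i ∈ Set.Ioi (0 : ℝ) from h i)]
    congr 1
    ring
  · have hmem : t ᵥ* W ∉ cone W := by
      intro hc
      apply h
      intro i
      have := hc i
      rwa [h2] at this
    rw [gfun, Set.indicator_of_notMem hmem]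
    push Not at h
    obtain ⟨i, hi⟩ := h
    rw [Finset.prod_eq_zero (Finset.mem_univ i)]
    exact Set.indicator_of_notMem (by simpa using hi) _

lemma cone_integral {M : ℕ} (W : Matrix (Fin M) (Fin M) ℝ) (hW : W.det ≠ 0) (z : Fin M → ℝ)
    (hz : ∀ i, 0 < W i ⬝ᵥ z) :
    Integrable (gfun W z) ∧ ∫ k, gfun W z k = |W.det| / ∏ i, (W i ⬝ᵥ z) := by
  have hdet : Wᵀ.det ≠ 0 := by rwa [Matrix.det_transpose]
  have hmap := Real.map_matrix_volume_pi_eq_smul_volume_pi hdet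
  have hc0 : ENNReal.ofReal |(Wᵀ.det)⁻¹| ≠ 0 := by
    rw [Ne, ENNReal.ofReal_eq_zero, not_le]
    exact abs_pos.2 (inv_ne_zero hdet)
  have hmeas : Measurable (Matrix.toLin' Wᵀ) :=
    (LinearMap.continuous_of_finiteDimensional _).measurable
  have hint0 : Integrable (fun t : Fin M → ℝ =>
      ∏ i, (Set.Ioi (0 : ℝ)).indicator (fun s => Real.exp (-(W i ⬝ᵥ z) * s)) (t i)) :=
    Integrable.fintype_prod (fun i => one_dim_int _ (hz i))
  have hcomp : (gfun W z) ∘ (Matrix.toLin' Wᵀ) = fun t : Fin M → ℝ =>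
      ∏ i, (Set.Ioi (0 : ℝ)).indicator (fun s => Real.exp (-(W i ⬝ᵥ z) * s)) (t i) := by
    funext t
    exact gfun_comp W hW z t
  have hint1 : Integrable (gfun W z) (Measure.map (Matrix.toLin' Wᵀ) volume) := by
    rw [integrable_map_measure (measurable_gfun W z).aestronglyMeasurable hmeas.aemeasurable,
      hcomp]
    exact hint0
  rw [hmap] at hint1
  have hint2 : Integrable (gfun W z) :=
    (integrable_smul_measure hc0 ENNReal.ofReal_ne_top).1 hint1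
  refine ⟨hint2, ?_⟩
  have h1 : ∫ k, gfun W z k ∂(Measure.map (Matrix.toLin' Wᵀ) volume) =
      ∏ i, (1 / (W i ⬝ᵥ z)) := by
    rw [integral_map hmeas.aemeasurable (measurable_gfun W z).aestronglyMeasurable]
    have : (fun t => gfun W z (Matrix.toLin' Wᵀ t)) = fun t : Fin M → ℝ =>
      ∏ i, (Set.Ioi (0 : ℝ)).indicator (fun s => Real.exp (-(W i ⬝ᵥ z) * s)) (t i) := hcomp
    rw [this, integral_fintype_prod_volume_eq_prod]
    exact Finset.prod_congr rfl fun i _ => one_dim _ (hz i)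
  rw [hmap, integral_smul_measure, ENNReal.toReal_ofReal (abs_nonneg _), Matrix.det_transpose,
    abs_inv, smul_eq_mul] at h1
  have habs : |W.det| ≠ 0 := abs_ne_zero.2 hW
  have h2 : ∫ k, gfun W z k = |W.det| * ∏ i, (1 / (W i ⬝ᵥ z)) := by
    rw [← h1]
    field_simp
  rw [h2]
  simp only [one_div, Finset.prod_inv_distrib]
  rfl

/-- almost every point has non-zero coordinates -/
lemma ae_coord {M : ℕ} (W : Matrix (Fin M) (Fin M) ℝ) (hW : W.det ≠ 0) :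
    ∀ᵐ k : Fin M → ℝ, ∀ i, (k ᵥ* W⁻¹) i ≠ 0 := by
  have hu : IsUnit W.det := isUnit_iff_ne_zero.2 hW
  rw [ae_all_iff]
  intro i
  let φ : (Fin M → ℝ) →ₗ[ℝ] ℝ := (LinearMap.proj i).comp (Matrix.vecMulLinear W⁻¹)
  have hφ : ∀ k, φ k = (k ᵥ* W⁻¹) i := fun k => rfl
  have hker : LinearMap.ker φ ≠ ⊤ := by
    intro h
    have h1 : (Pi.single i 1 : Fin M → ℝ) ᵥ* W ∈ LinearMap.ker φ := by rw [h]; trivial
    rw [LinearMap.mem_ker, hφ, Matrix.vecMul_vecMul, Matrix.mul_nonsing_inv _ hu,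
      Matrix.vecMul_one] at h1
    simp at h1
  have := Measure.addHaar_submodule (volume : Measure (Fin M → ℝ)) (LinearMap.ker φ) hker
  rw [ae_iff]
  refine measure_mono_null ?_ this
  intro k hk
  simp only [Set.mem_ofPred_eq, not_not] at hk
  simpa [LinearMap.mem_ker, hφ] using hk

section Main

variable {ℓ m M : ℕ}

/-- the reindexing -/
def eqv (hM : ℓ + m = M) : Fin ℓ ⊕ Fin m ≃ Fin M := finSumFinEquiv.trans (finCongr hM)

/-- the matrix of a family `w, b` -/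
def mat (hM : ℓ + m = M) (w : Fin ℓ → Fin M → ℝ) (b : Fin m → Fin M → ℝ) :
    Matrix (Fin M) (Fin M) ℝ := Matrix.of fun i => Sum.elim w b ((eqv hM).symm i)

lemma mat_row (hM : ℓ + m = M) (w : Fin ℓ → Fin M → ℝ) (b : Fin m → Fin M → ℝ)
    (s : Fin ℓ ⊕ Fin m) : (mat hM w b) (eqv hM s) = Sum.elim w b s := by
  change Sum.elim w b ((eqv hM).symm (eqv hM s)) = _
  rw [Equiv.symm_apply_apply]

lemma mat_det_ne (hM : ℓ + m = M) (w : Fin ℓ → Fin M → ℝ) (v b : Fin m → Fin M → ℝ)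
    (hb : ∀ k k', b k ⬝ᵥ v k' = if k = k' then 1 else 0) (hv : ∀ j k, w j ⬝ᵥ v k = 0)
    (hli : LinearIndependent ℝ w) : (mat hM w b).det ≠ 0 := by
  have h1 : LinearIndependent ℝ (Sum.elim w b) := by
    rw [Fintype.linearIndependent_iff]
    intro g hg
    rw [Fintype.sum_sum_type] at hg
    simp only [Sum.elim_inl, Sum.elim_inr] at hg
    have hr : ∀ k, g (Sum.inr k) = 0 := by
      intro k
      have h2 := congrArg (fun p => p ⬝ᵥ v k) hg
      simp only [add_dotProduct, sum_dotProduct, smul_dotProduct, hv, hb, smul_eq_mul, mul_zero,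
        Finset.sum_const_zero, zero_add, mul_ite, mul_one, Finset.sum_ite_eq',
        Finset.mem_univ, if_true, zero_dotProduct] at h2
      exact h2
    simp only [hr, zero_smul, Finset.sum_const_zero, add_zero] at hg
    have hl := Fintype.linearIndependent_iff.1 hli (fun j => g (Sum.inl j)) hg
    rintro (j | k)
    · exact hl j
    · exact hr k
  have h2 : LinearIndependent ℝ (mat hM w b).row := by
    have : (mat hM w b).row = Sum.elim w b ∘ (eqv hM).symm := rfl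
    rw [this]
    exact h1.comp _ (eqv hM).symm.injective
  rw [Matrix.linearIndependent_rows_iff_isUnit, Matrix.isUnit_iff_isUnit_det] at h2
  exact h2.ne_zero

/-- `k` in terms of its coordinates. -/
lemma rep (hM : ℓ + m = M) (w : Fin ℓ → Fin M → ℝ) (b : Fin m → Fin M → ℝ)
    (hW : (mat hM w b).det ≠ 0) (k : Fin M → ℝ) :
    k = ∑ j, (k ᵥ* (mat hM w b)⁻¹) (eqv hM (Sum.inl j)) • w j +
      ∑ l, (k ᵥ* (mat hM w b)⁻¹) (eqv hM (Sum.inr l)) • b l := by
  have hu : IsUnit (mat hM w b).det := isUnit_iff_ne_zero.2 hW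
  set c := k ᵥ* (mat hM w b)⁻¹ with hc
  have h1 : c ᵥ* (mat hM w b) = k := by
    rw [hc, Matrix.vecMul_vecMul, Matrix.nonsing_inv_mul _ hu, Matrix.vecMul_one]
  have h2 : c ᵥ* (mat hM w b) = ∑ i, c i • (mat hM w b) i := by
    ext i
    simp [Matrix.vecMul, dotProduct]
  rw [← h1, h2, ← (eqv hM).sum_comp, Fintype.sum_sum_type]
  simp only [mat_row, Sum.elim_inl, Sum.elim_inr]

lemma coord_of_rep (hM : ℓ + m = M) (w : Fin ℓ → Fin M → ℝ) (b : Fin m → Fin M → ℝ)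
    (hW : (mat hM w b).det ≠ 0) (t : Fin ℓ → ℝ) (r : Fin m → ℝ) :
    (∑ j, t j • w j + ∑ l, r l • b l) ᵥ* (mat hM w b)⁻¹ =
      fun i => Sum.elim t r ((eqv hM).symm i) := by
  have hu : IsUnit (mat hM w b).det := isUnit_iff_ne_zero.2 hW
  set c : Fin M → ℝ := fun i => Sum.elim t r ((eqv hM).symm i) with hc
  have h2 : c ᵥ* (mat hM w b) = ∑ i, c i • (mat hM w b) i := by
    ext i
    simp [Matrix.vecMul, dotProduct]
  have h3 : c ᵥ* (mat hM w b) = ∑ j, t j • w j + ∑ l, r l • b l := by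
    rw [h2, ← (eqv hM).sum_comp, Fintype.sum_sum_type]
    simp only [mat_row, Sum.elim_inl, Sum.elim_inr, hc, Equiv.symm_apply_apply]
  rw [← h3, Matrix.vecMul_vecMul, Matrix.mul_nonsing_inv _ hu, Matrix.vecMul_one]

lemma coord_inr (hM : ℓ + m = M) (w : Fin ℓ → Fin M → ℝ) (v b : Fin m → Fin M → ℝ)
    (hb : ∀ k k', b k ⬝ᵥ v k' = if k = k' then 1 else 0) (hv : ∀ j k, w j ⬝ᵥ v k = 0)
    (hW : (mat hM w b).det ≠ 0) (k : Fin M → ℝ) (l : Fin m) :
    (k ᵥ* (mat hM w b)⁻¹) (eqv hM (Sum.inr l)) = k ⬝ᵥ v l := by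
  have h1 := congrArg (fun p => p ⬝ᵥ v l) (rep hM w b hW k)
  simp only [add_dotProduct, sum_dotProduct, smul_dotProduct, hv, hb, smul_eq_mul, mul_zero,
        Finset.sum_const_zero, zero_add, mul_ite, mul_one, Finset.sum_ite_eq',
        Finset.mem_univ, if_true] at h1
  exact h1.symm

/-- the functional -/
def zv (v b : Fin m → Fin M → ℝ) (y : Fin M → ℝ) : Fin M → ℝ :=
  y - ∑ k, (b k ⬝ᵥ y) • v k + ∑ k, v k

lemma dot_zv (v b : Fin m → Fin M → ℝ) (y p : Fin M → ℝ) :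
    p ⬝ᵥ zv v b y = p ⬝ᵥ y - ∑ k, (b k ⬝ᵥ y) * (p ⬝ᵥ v k) + ∑ k, p ⬝ᵥ v k := by
  simp [zv, dotProduct_add, dotProduct_sub, dotProduct_sum, dotProduct_smul]

/-- The contribution of one cone. -/
lemma piece (hM : ℓ + m = M) (w : Fin ℓ → Fin M → ℝ) (v b : Fin m → Fin M → ℝ) (y : Fin M → ℝ)
    (hb : ∀ k k', b k ⬝ᵥ v k' = if k = k' then 1 else 0) (hv : ∀ j k, w j ⬝ᵥ v k = 0)
    (hli : LinearIndependent ℝ w) (hy : ∀ j, 0 < w j ⬝ᵥ y) :
    Integrable (gfun (mat hM w b) (zv v b y)) ∧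
      ∫ k, gfun (mat hM w b) (zv v b y) k = adet (Sum.elim w b) / ∏ j, (w j ⬝ᵥ y) := by
  have hw : ∀ j, w j ⬝ᵥ zv v b y = w j ⬝ᵥ y := by
    intro j
    rw [dot_zv]
    simp [hv]
  have hbz : ∀ k, b k ⬝ᵥ zv v b y = 1 := by
    intro k
    rw [dot_zv]
    simp [hb]
  have hall : ∀ s : Fin ℓ ⊕ Fin m, 0 < Sum.elim w b s ⬝ᵥ zv v b y := by
    rintro (j | k)
    · simpa [hw] using hy j
    · simp [hbz]
  have h := cone_integral (mat hM w b) (mat_det_ne hM w v b hb hv hli) (zv v b y)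
    (fun i => hall _)
  refine ⟨h.1, ?_⟩
  rw [h.2]
  have h1 : adet (Sum.elim w b) = |(mat hM w b).det| := adet_eq _ (eqv hM)
  have h2 : ∏ i, ((mat hM w b) i ⬝ᵥ zv v b y) = ∏ j, (w j ⬝ᵥ y) := by
    rw [← (eqv hM).prod_comp, Fintype.prod_sum_type]
    simp only [mat_row, Sum.elim_inl, Sum.elim_inr, hw, hbz, Finset.prod_const_one, mul_one]
  rw [h1, h2]

/-- One cover transfers almost every point. -/
lemma transfer (hM : ℓ + m = M) {β : Type} (w : Fin ℓ → Fin M → ℝ) (D' : β → Fin ℓ → Fin M → ℝ)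
    (v b : Fin m → Fin M → ℝ)
    (hb : ∀ k k', b k ⬝ᵥ v k' = if k = k' then 1 else 0)
    (hv : ∀ j k, w j ⬝ᵥ v k = 0) (hv' : ∀ x j k, D' x j ⬝ᵥ v k = 0)
    (hli : LinearIndependent ℝ w) (hli' : ∀ x, LinearIndependent ℝ (D' x))
    (cover : ∀ t : Fin ℓ → ℝ, (∀ j, 0 < t j) → ∃ x', ∃ t' : Fin ℓ → ℝ, (∀ j, 0 ≤ t' j) ∧
      ∑ j, t j • w j = ∑ j, t' j • D' x' j) (k : Fin M → ℝ)
    (hk : ∀ x' i, (k ᵥ* (mat hM (D' x') b)⁻¹) i ≠ 0) (hkc : k ∈ cone (mat hM w b)) :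
    ∃ x', k ∈ cone (mat hM (D' x') b) := by
  have hW := mat_det_ne hM w v b hb hv hli
  obtain ⟨x', t', ht', he⟩ := cover (fun j => (k ᵥ* (mat hM w b)⁻¹) (eqv hM (Sum.inl j)))
    (fun j => hkc _)
  refine ⟨x', ?_⟩
  have hW' := mat_det_ne hM (D' x') v b hb (hv' x') (hli' x')
  have h1 := rep hM w b hW k
  rw [he] at h1
  have h2 := coord_of_rep hM (D' x') b hW' t'
    (fun l => (k ᵥ* (mat hM w b)⁻¹) (eqv hM (Sum.inr l)))
  rw [← h1] at h2
  intro i
  have h3 := hk x' i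
  rw [h2] at h3 ⊢
  obtain ⟨s, rfl⟩ := (eqv hM).surjective i
  simp only [Equiv.symm_apply_apply] at h3 ⊢
  rcases s with j | l
  · simp only [Sum.elim_inl] at h3 ⊢
    exact lt_of_le_of_ne (ht' j) (Ne.symm h3)
  · simp only [Sum.elim_inr]
    exact hkc _

lemma disj_cone (hM : ℓ + m = M) {α : Type} (D : α → Fin ℓ → Fin M → ℝ)
    (v b : Fin m → Fin M → ℝ)
    (hb : ∀ k k', b k ⬝ᵥ v k' = if k = k' then 1 else 0)
    (hv : ∀ x j k, D x j ⬝ᵥ v k = 0) (hli : ∀ x, LinearIndependent ℝ (D x))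
    (disj : ∀ x x', x ≠ x' → ∀ t t' : Fin ℓ → ℝ, (∀ j, 0 < t j) → (∀ j, 0 < t' j) →
      ∑ j, t j • D x j ≠ ∑ j, t' j • D x' j) (k : Fin M → ℝ) (x x' : α)
    (hx : k ∈ cone (mat hM (D x) b)) (hx' : k ∈ cone (mat hM (D x') b)) : x = x' := by
  by_contra hne
  have hW := mat_det_ne hM (D x) v b hb (hv x) (hli x)
  have hW' := mat_det_ne hM (D x') v b hb (hv x') (hli x')
  apply disj x x' hne _ _ (fun j => hx (eqv hM (Sum.inl j))) (fun j => hx' (eqv hM (Sum.inl j)))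
  have h1 := rep hM (D x) b hW k
  have h2 := rep hM (D x') b hW' k
  simp only [coord_inr hM _ v b hb (hv x) hW, coord_inr hM _ v b hb (hv x') hW'] at h1 h2
  have h3 := h1.symm.trans h2
  exact add_right_cancel h3

lemma sum_gfun (hM : ℓ + m = M) {α : Type} [Fintype α] (D : α → Fin ℓ → Fin M → ℝ)
    (v b : Fin m → Fin M → ℝ)
    (hb : ∀ k k', b k ⬝ᵥ v k' = if k = k' then 1 else 0)
    (hv : ∀ x j k, D x j ⬝ᵥ v k = 0) (hli : ∀ x, LinearIndependent ℝ (D x))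
    (disj : ∀ x x', x ≠ x' → ∀ t t' : Fin ℓ → ℝ, (∀ j, 0 < t j) → (∀ j, 0 < t' j) →
      ∑ j, t j • D x j ≠ ∑ j, t' j • D x' j) (z k : Fin M → ℝ) :
    ∑ x, gfun (mat hM (D x) b) z k =
      {k | ∃ x, k ∈ cone (mat hM (D x) b)}.indicator (fun k => Real.exp (-(k ⬝ᵥ z))) k := by
  classical
  by_cases h : ∃ x, k ∈ cone (mat hM (D x) b)
  · rw [Set.indicator_of_mem (by simpa using h)]
    obtain ⟨x, hx⟩ := h
    rw [Finset.sum_eq_single x]
    · exact Set.indicator_of_mem hx _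
    · intro x' _ hne
      refine Set.indicator_of_notMem (fun hx' => hne ?_) _
      exact disj_cone hM D v b hb hv hli disj k x' x hx' hx
    · intro hx'
      exact absurd (Finset.mem_univ x) hx'
  · rw [Set.indicator_of_notMem (by simpa using h)]
    refine Finset.sum_eq_zero fun x _ => Set.indicator_of_notMem (fun hx => h ⟨x, hx⟩) _

/-- **Module M**: two decompositions of the same cone give the same sum. -/
theorem laplace_unique (hM : ℓ + m = M) {α β : Type} [Fintype α] [Fintype β]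
    (D : α → Fin ℓ → Fin M → ℝ) (D' : β → Fin ℓ → Fin M → ℝ)
    (v b : Fin m → Fin M → ℝ) (y : Fin M → ℝ)
    (hb : ∀ k k', b k ⬝ᵥ v k' = if k = k' then 1 else 0)
    (hv : ∀ x j k, D x j ⬝ᵥ v k = 0) (hv' : ∀ x j k, D' x j ⬝ᵥ v k = 0)
    (hli : ∀ x, LinearIndependent ℝ (D x)) (hli' : ∀ x, LinearIndependent ℝ (D' x))
    (hy : ∀ x j, 0 < D x j ⬝ᵥ y) (hy' : ∀ x j, 0 < D' x j ⬝ᵥ y)
    (cover : ∀ x, ∀ t : Fin ℓ → ℝ, (∀ j, 0 < t j) → ∃ x', ∃ t' : Fin ℓ → ℝ, (∀ j, 0 ≤ t' j) ∧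
      ∑ j, t j • D x j = ∑ j, t' j • D' x' j)
    (cover' : ∀ x, ∀ t : Fin ℓ → ℝ, (∀ j, 0 < t j) → ∃ x', ∃ t' : Fin ℓ → ℝ, (∀ j, 0 ≤ t' j) ∧
      ∑ j, t j • D' x j = ∑ j, t' j • D x' j)
    (disj : ∀ x x', x ≠ x' → ∀ t t' : Fin ℓ → ℝ, (∀ j, 0 < t j) → (∀ j, 0 < t' j) →
      ∑ j, t j • D x j ≠ ∑ j, t' j • D x' j)
    (disj' : ∀ x x', x ≠ x' → ∀ t t' : Fin ℓ → ℝ, (∀ j, 0 < t j) → (∀ j, 0 < t' j) →
      ∑ j, t j • D' x j ≠ ∑ j, t' j • D' x' j) :
    ∑ x, adet (Sum.elim (D x) b) / ∏ j, (D x j ⬝ᵥ y) =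
      ∑ x, adet (Sum.elim (D' x) b) / ∏ j, (D' x j ⬝ᵥ y) := by
  have h1 : ∀ x, adet (Sum.elim (D x) b) / ∏ j, (D x j ⬝ᵥ y) =
      ∫ k, gfun (mat hM (D x) b) (zv v b y) k :=
    fun x => (piece hM (D x) v b y hb (hv x) (hli x) (hy x)).2.symm
  have h1' : ∀ x, adet (Sum.elim (D' x) b) / ∏ j, (D' x j ⬝ᵥ y) =
      ∫ k, gfun (mat hM (D' x) b) (zv v b y) k :=
    fun x => (piece hM (D' x) v b y hb (hv' x) (hli' x) (hy' x)).2.symm
  simp only [h1, h1']
  rw [← integral_finsetSum _ fun x _ => (piece hM (D x) v b y hb (hv x) (hli x) (hy x)).1,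
    ← integral_finsetSum _ fun x _ => (piece hM (D' x) v b y hb (hv' x) (hli' x) (hy' x)).1]
  have hae : ∀ᵐ k : Fin M → ℝ, ∀ x i, (k ᵥ* (mat hM (D x) b)⁻¹) i ≠ 0 := by
    rw [ae_all_iff]
    exact fun x => ae_coord _ (mat_det_ne hM (D x) v b hb (hv x) (hli x))
  have hae' : ∀ᵐ k : Fin M → ℝ, ∀ x i, (k ᵥ* (mat hM (D' x) b)⁻¹) i ≠ 0 := by
    rw [ae_all_iff]
    exact fun x => ae_coord _ (mat_det_ne hM (D' x) v b hb (hv' x) (hli' x))
  refine integral_congr_ae ?_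
  filter_upwards [hae, hae'] with k hk hk'
  rw [sum_gfun hM D v b hb hv hli disj, sum_gfun hM D' v b hb hv' hli' disj']
  have hiff : (∃ x, k ∈ cone (mat hM (D x) b)) ↔ ∃ x, k ∈ cone (mat hM (D' x) b) := by
    constructor
    · rintro ⟨x, hx⟩
      exact transfer hM (D x) D' v b hb (hv x) hv' (hli x) hli' (cover x) k hk' hx
    · rintro ⟨x, hx⟩
      exact transfer hM (D' x) D v b hb (hv' x) hv (hli' x) hli (cover' x) k hk hx
  by_cases h : ∃ x, k ∈ cone (mat hM (D x) b)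
  · rw [Set.indicator_of_mem (by simpa using h), Set.indicator_of_mem (by simpa using hiff.1 h)]
  · rw [Set.indicator_of_notMem (by simpa using h),
      Set.indicator_of_notMem (by simpa using fun h' => h (hiff.2 h'))]

end Main

end Pool.Agent.helper19.DL
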